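import Pool.Agent.Y811.PC.Stm6
import Pool.Agent.Helper240.ZFM.Q2b

/-!
# PA-KOE: Koebe's quarter theorem and growth theorem on discs (helper259, for project PA of helper811)
-/

set_option autoImplicit false

namespace Pool.Agent.Y259.PA

open Complex Metric Set Filter Topology
open Pool.Agent.Y811.PC

/-- the affine change of variables -/
theorem aff_has (u : ℂ) (r : ℝ) (z : ℂ) : HasDerivAt (fun z : ℂ => u + (r : ℂ) * z) (r : ℂ) z := by
  simpa using ((hasDerivAt_id z).const_mul (r : ℂ)).const_add u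

theorem aff_mem {u z : ℂ} {r : ℝ} (hr : 0 < r) (hz : z ∈ ball (0 : ℂ) 1) :
    u + (r : ℂ) * z ∈ ball u r := by
  rw [mem_ball, dist_eq_norm, add_sub_cancel_left, norm_mul, Complex.norm_real, Real.norm_eq_abs,
    abs_of_pos hr]
  rw [mem_ball_zero_iff] at hz
  nlinarith

theorem aff_inj {u : ℂ} {r : ℝ} (hr : 0 < r) : Function.Injective (fun z : ℂ => u + (r : ℂ) * z) := by
  intro z w h
  have h1 : (r : ℂ) * z = (r : ℂ) * w := by simpa using h
  exact mul_left_cancel₀ (by exact_mod_cast hr.ne') h1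

section

variable {φ : ℂ → ℂ} {u : ℂ} {r : ℝ}

theorem comp_has (hr : 0 < r) (hd : DifferentiableOn ℂ φ (ball u r)) {z : ℂ}
    (hz : z ∈ ball (0 : ℂ) 1) :
    HasDerivAt (fun z : ℂ => φ (u + (r : ℂ) * z)) (deriv φ (u + (r : ℂ) * z) * r) z := by
  have h1 : HasDerivAt φ (deriv φ (u + (r : ℂ) * z)) (u + (r : ℂ) * z) :=
    (hd.differentiableAt (isOpen_ball.mem_nhds (aff_mem hr hz))).hasDerivAt
  exact HasDerivAt.comp z h1 (aff_has u r z)

theorem comp_inj (hr : 0 < r) (hi : InjOn φ (ball u r)) :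
    InjOn (fun z : ℂ => φ (u + (r : ℂ) * z)) (ball 0 1) := by
  intro z hz w hw h
  exact aff_inj hr (hi (aff_mem hr hz) (aff_mem hr hw) h)

/-- the second coefficient at the centre -/
theorem second (hr : 0 < r) (hd : DifferentiableOn ℂ φ (ball u r)) (hi : InjOn φ (ball u r)) :
    r * ‖deriv (deriv φ) u‖ ≤ 4 * ‖deriv φ u‖ := by
  have h0 : (0 : ℂ) ∈ ball (0 : ℂ) 1 := mem_ball_self one_pos
  have hu : u ∈ ball u r := mem_ball_self hr
  have hd1 : DifferentiableOn ℂ (fun z : ℂ => φ (u + (r : ℂ) * z)) (ball 0 1) := fun z hz =>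
    (comp_has hr hd hz).differentiableAt.differentiableWithinAt
  have h1 := ZFM.koebe_second hd1 (comp_inj hr hi) h0
  have e1 : deriv (fun z : ℂ => φ (u + (r : ℂ) * z)) 0 = deriv φ u * r := by
    rw [(comp_has hr hd h0).deriv, mul_zero, add_zero]
  have e2 : deriv (deriv (fun z : ℂ => φ (u + (r : ℂ) * z))) 0 = deriv (deriv φ) u * r * r := by
    have hev : deriv (fun z : ℂ => φ (u + (r : ℂ) * z)) =ᶠ[𝓝 0]
        fun z => deriv φ (u + (r : ℂ) * z) * r := by
      filter_upwards [isOpen_ball.mem_nhds h0] with z hz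
      exact (comp_has hr hd hz).deriv
    rw [hev.deriv_eq]
    have h2 := (comp_has hr (hd.deriv isOpen_ball) h0).mul_const (r : ℂ)
    rw [h2.deriv, mul_zero, add_zero]
  rw [e1, e2] at h1
  simp only [norm_zero, map_zero, mul_zero, zero_mul, sub_zero] at h1
  have e3 : ((1 - (0 : ℝ) ^ 2 : ℝ) : ℂ) = 1 := by norm_num
  rw [e3, mul_one, norm_mul, norm_mul, norm_mul, Complex.norm_real, Real.norm_eq_abs,
    abs_of_pos hr] at h1
  have h2 : r * (r * ‖deriv (deriv φ) u‖) ≤ r * (4 * ‖deriv φ u‖) := by linarith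
  exact le_of_mul_le_mul_left h2 hr

end

theorem t_KOE : S_KOE := by
  refine ⟨100, by norm_num, fun φ a R hR hd hi => ⟨?_, ?_⟩⟩
  · intro v hv
    by_contra hcon
    have hd1 : DifferentiableOn ℂ (fun z : ℂ => φ (a + (R : ℂ) * z) - φ a) (ball 0 1) := fun z hz =>
      ((comp_has hR hd hz).differentiableAt.sub_const _).differentiableWithinAt
    have hi1 : InjOn (fun z : ℂ => φ (a + (R : ℂ) * z) - φ a) (ball 0 1) := by
      intro z hz w hw h
      exact comp_inj hR hi hz hw (by simpa using h)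
    have h1 := ZFM.koebe_quarter hd1 hi1 (by simp) (v := v - φ a) (by
      intro z hz h
      exact hcon ⟨_, aff_mem hR hz, sub_left_inj.1 h⟩)
    have h2 : deriv (fun z : ℂ => φ (a + (R : ℂ) * z) - φ a) 0 = deriv φ a * R := by
      rw [((comp_has hR hd (mem_ball_self one_pos)).sub_const _).deriv, mul_zero, add_zero]
    rw [h2, norm_mul, Complex.norm_real, Real.norm_eq_abs, abs_of_pos hR] at h1
    rw [mem_ball, dist_eq_norm] at hv
    linarith
  · have hsub : ∀ x ∈ closedBall a (R / 2), ball x (R / 2) ⊆ ball a R := by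
      intro x hx
      refine ball_subset_ball' ?_
      rw [mem_closedBall] at hx
      linarith
    have hmem : ∀ x ∈ closedBall a (R / 2), x ∈ ball a R := fun x hx =>
      hsub x hx (mem_ball_self (by linarith))
    have hsec : ∀ x ∈ closedBall a (R / 2), R / 2 * ‖deriv (deriv φ) x‖ ≤ 4 * ‖deriv φ x‖ :=
      fun x hx => second (by linarith) (hd.mono (hsub x hx)) (hi.mono (hsub x hx))
    have hder : ∀ x ∈ closedBall a (R / 2), ‖deriv φ x‖ ≤ Real.exp 4 * ‖deriv φ a‖ := by
      intro x hx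
      have hx' : ‖x - a‖ ≤ R / 2 := by rwa [mem_closedBall, dist_eq_norm] at hx
      have hseg : ∀ t ∈ Icc (0 : ℝ) 1, a + (t : ℂ) * (x - a) ∈ closedBall a (R / 2) := by
        intro t ht
        rw [mem_closedBall, dist_eq_norm, add_sub_cancel_left, norm_mul, Complex.norm_real,
          Real.norm_eq_abs, abs_of_nonneg ht.1]
        have := norm_nonneg (x - a)
        nlinarith [ht.2]
      have hf : ∀ t ∈ Icc (0 : ℝ) 1, HasDerivAt (fun t : ℝ => deriv φ (a + (t : ℂ) * (x - a)))
          (deriv (deriv φ) (a + (t : ℂ) * (x - a)) * (x - a)) t := by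
        intro t ht
        have h1 : HasDerivAt (deriv φ) (deriv (deriv φ) (a + (t : ℂ) * (x - a)))
            (a + (t : ℂ) * (x - a)) :=
          ((hd.deriv isOpen_ball).differentiableAt
            (isOpen_ball.mem_nhds (hmem _ (hseg t ht)))).hasDerivAt
        have h2 : HasDerivAt (fun t : ℝ => a + (t : ℂ) * (x - a)) (x - a) t := by
          simpa using (((hasDerivAt_id (t : ℂ)).mul_const (x - a)).const_add a).comp_ofReal
        exact HasDerivAt.comp t h1 h2
      have h3 := norm_le_gronwallBound_of_norm_deriv_right_le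
        (f := fun t : ℝ => deriv φ (a + (t : ℂ) * (x - a)))
        (f' := fun t : ℝ => deriv (deriv φ) (a + (t : ℂ) * (x - a)) * (x - a))
        (δ := ‖deriv φ a‖) (K := 4) (ε := 0) (a := 0) (b := 1)
        (fun t ht => (hf t ht).continuousAt.continuousWithinAt)
        (fun t ht => (hf t (Ico_subset_Icc_self ht)).hasDerivWithinAt)
        (by simp) (by
          intro t ht
          have h4 := hsec _ (hseg t (Ico_subset_Icc_self ht))
          rw [norm_mul, add_zero]
          calc ‖deriv (deriv φ) (a + (t : ℂ) * (x - a))‖ * ‖x - a‖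
              ≤ ‖deriv (deriv φ) (a + (t : ℂ) * (x - a))‖ * (R / 2) :=
                mul_le_mul_of_nonneg_left hx' (norm_nonneg _)
            _ ≤ 4 * ‖deriv φ (a + (t : ℂ) * (x - a))‖ := by linarith)
        1 ⟨zero_le_one, le_rfl⟩
      rw [gronwallBound_ε0] at h3
      simp only [ofReal_one, one_mul, add_sub_cancel, sub_zero, mul_one] at h3
      linarith
    intro w hw
    have hwm : w ∈ closedBall a (R / 2) := by rwa [mem_closedBall, dist_eq_norm]
    have h1 := (convex_closedBall a (R / 2)).norm_image_sub_le_of_norm_deriv_le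
      (f := φ) (C := Real.exp 4 * ‖deriv φ a‖)
      (fun x hx => hd.differentiableAt (isOpen_ball.mem_nhds (hmem x hx))) hder
      (mem_closedBall_self (by linarith)) hwm
    have h2 : Real.exp 4 ≤ 81 := by
      have h3 : Real.exp 4 = Real.exp 1 ^ 4 := by
        rw [← Real.exp_nat_mul]
        norm_num
      rw [h3]
      calc Real.exp 1 ^ 4 ≤ 3 ^ 4 :=
            pow_le_pow_left₀ (Real.exp_pos 1).le Real.exp_one_lt_three.le 4
        _ = 81 := by norm_num
    calc ‖φ w - φ a‖ ≤ Real.exp 4 * ‖deriv φ a‖ * ‖w - a‖ := h1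
      _ ≤ 81 * ‖deriv φ a‖ * (R / 2) := by gcongr
      _ ≤ 100 * (R * ‖deriv φ a‖) := by
          nlinarith [mul_nonneg hR.le (norm_nonneg (deriv φ a))]

end Pool.Agent.Y259.PA
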